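import Mathlib

set_option autoImplicit false

namespace Pool.Agent.Helper80.CK

open Monoid Monoid.CoprodI

/-- The free product of two infinite cyclic groups. -/
abbrev P := CoprodI (fun _ : Fin 2 => Multiplicative ℤ)

abbrev Sy := Σ _ : Fin 2, Multiplicative ℤ

def ev {G : Type*} [Group G] (f : Fin 2 → Multiplicative ℤ → G) (l : List Sy) : G :=
  (l.map (fun s => f s.1 s.2)).prod

def pr (l : List Sy) : P :=
  (l.map (fun s => (CoprodI.of (M := fun _ : Fin 2 => Multiplicative ℤ) (i := s.1) s.2))).prod

def Red (l : List Sy) : Prop :=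
  (∀ s ∈ l, s.2 ≠ 1) ∧ l.IsChain (fun s t => s.1 ≠ t.1)

@[simp] lemma ev_nil {G : Type*} [Group G] (f : Fin 2 → Multiplicative ℤ → G) : ev f [] = 1 := rfl
@[simp] lemma pr_nil : pr [] = 1 := rfl

lemma ev_append {G : Type*} [Group G] (f : Fin 2 → Multiplicative ℤ → G) (l l' : List Sy) :
    ev f (l ++ l') = ev f l * ev f l' := by simp [ev]

lemma pr_append (l l' : List Sy) : pr (l ++ l') = pr l * pr l' := by simp [pr]

lemma ev_cons {G : Type*} [Group G] (f : Fin 2 → Multiplicative ℤ → G) (s : Sy) (l : List Sy) :
    ev f (s :: l) = f s.1 s.2 * ev f l := by simp [ev]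

lemma pr_cons (s : Sy) (l : List Sy) :
    pr (s :: l) = CoprodI.of (M := fun _ : Fin 2 => Multiplicative ℤ) (i := s.1) s.2 * pr l := by
  simp [pr]

lemma Red.nil : Red [] := ⟨by simp, List.isChain_nil⟩

theorem merge {G : Type*} [Group G] (f : ℕ → Fin 2 → Multiplicative ℤ → G)
    (hinv : ∀ m i s, f m i s⁻¹ = (f m i s)⁻¹)
    (hdef : ∀ i s t, ∃ S : Finset ℕ, S.card ≤ 3 ∧ ∀ m ∉ S, f m i (s * t) = f m i s * f m i t) :
    ∀ n, ∀ l1 l2 : List Sy, l1.length = n → Red l1 → Red l2 →
      ∃ l3, Red l3 ∧ pr l3 = pr l1 * pr l2 ∧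
        ∃ S : Finset ℕ, S.card ≤ 3 ∧ ∀ m ∉ S, ev (f m) l3 = ev (f m) l1 * ev (f m) l2 := by
  intro n
  induction n with
  | zero =>
    intro l1 l2 h1 _ hr2
    have : l1 = [] := List.length_eq_zero_iff.mp h1
    subst this
    exact ⟨l2, hr2, by simp, ∅, by simp, by simp⟩
  | succ n ih =>
    intro l1 l2 h1 hr1 hr2
    rcases List.eq_nil_or_concat l1 with h | ⟨l1', s, h⟩
    · subst h; simp at h1
    · have hs : l1 = l1' ++ [s] := by simpa using h
      subst hs
      have hlen : l1'.length = n := by simpa using h1
      rcases l2 with _ | ⟨t, l2'⟩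
      · exact ⟨l1' ++ [s], hr1, by simp, ∅, by simp, by simp⟩
      · have hr1' : Red l1' := ⟨fun x hx => hr1.1 x (by simp [hx]), by
          have := hr1.2
          exact (List.isChain_append.mp this).1⟩
        have hr2' : Red l2' := ⟨fun x hx => hr2.1 x (by simp [hx]), by
          have := hr2.2
          exact (List.isChain_cons.mp this).2⟩
        by_cases hst : s.1 = t.1
        · obtain ⟨i, s2⟩ := s
          obtain ⟨j, t2⟩ := t
          simp only at hst
          subst hst
          by_cases h1' : s2 * t2 = 1
          · obtain ⟨l3, hl3, hp3, S, hS, hev⟩ := ih l1' l2' hlen hr1' hr2'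
            have ht2 : t2 = s2⁻¹ := (inv_eq_of_mul_eq_one_right h1').symm
            refine ⟨l3, hl3, ?_, S, hS, ?_⟩
            · rw [hp3, pr_append, pr_cons, pr_cons, pr_nil]
              simp only [mul_one]
              rw [mul_assoc, ← mul_assoc (CoprodI.of (M := fun _ : Fin 2 => Multiplicative ℤ) (i := i) s2),
                ← map_mul, h1', map_one, one_mul]
            · intro m hm
              rw [hev m hm, ev_append, ev_cons, ev_cons, ev_nil]
              simp only [mul_one]
              rw [mul_assoc, ← mul_assoc (f m i s2), ht2, hinv, mul_inv_cancel, one_mul]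
          · obtain ⟨S, hS, hev⟩ := hdef i s2 t2
            refine ⟨l1' ++ ⟨i, s2 * t2⟩ :: l2', ?_, ?_, S, hS, ?_⟩
            · constructor
              · intro x hx
                rcases List.mem_append.mp hx with hx | hx
                · exact hr1'.1 x hx
                · rcases List.mem_cons.mp hx with hx | hx
                  · subst hx; exact h1'
                  · exact hr2'.1 x hx
              · have ha := List.isChain_append.mp hr1.2
                have hb := List.isChain_cons.mp hr2.2
                refine List.isChain_append.mpr ⟨ha.1, ?_, ?_⟩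
                · refine List.isChain_cons.mpr ⟨?_, hb.2⟩
                  intro y hy
                  exact hb.1 y hy
                · intro x hx y hy
                  simp only [List.head?_cons, Option.mem_def, Option.some.injEq] at hy
                  subst hy
                  exact ha.2.2 x hx ⟨i, s2⟩ (by simp)
            · rw [pr_append, pr_append, pr_cons, pr_cons, pr_cons, pr_nil]
              simp only [mul_one, map_mul, mul_assoc]
            · intro m hm
              rw [ev_append, ev_append, ev_cons, ev_cons, ev_cons, ev_nil]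
              simp only [mul_one, hev m hm, mul_assoc]
        · refine ⟨(l1' ++ [s]) ++ (t :: l2'), ?_, by rw [pr_append], ∅, by simp, ?_⟩
          · constructor
            · intro x hx
              rcases List.mem_append.mp hx with hx | hx
              · exact hr1.1 x hx
              · exact hr2.1 x hx
            · refine List.isChain_append.mpr ⟨hr1.2, hr2.2, ?_⟩
              intro x hx y hy
              simp at hx hy
              subst hx; subst hy
              exact hst
          · intro m _
            rw [ev_append]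

/-- reduced word of an element -/
noncomputable def wd (x : P) : List Sy := (Word.equiv x).toList

lemma wd_red (x : P) : Red (wd x) := ⟨(Word.equiv x).ne_one, (Word.equiv x).chain_ne⟩

lemma wd_pr (x : P) : pr (wd x) = x := by
  have : (Word.equiv x).prod = x := Word.equiv.left_inv x
  exact this

lemma wd_unique {l : List Sy} (hl : Red l) : wd (pr l) = l := by
  let w : Word (fun _ : Fin 2 => Multiplicative ℤ) := ⟨l, hl.1, hl.2⟩
  have : Word.equiv (w.prod) = w := Word.equiv.right_inv w
  have h2 : pr l = w.prod := rfl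
  unfold wd
  rw [h2, this]

noncomputable def Q {G : Type*} [Group G] (f : Fin 2 → Multiplicative ℤ → G) (x : P) : G :=
  ev f (wd x)

lemma Q_pr {G : Type*} [Group G] (f : Fin 2 → Multiplicative ℤ → G) {l : List Sy} (hl : Red l) :
    Q f (pr l) = ev f l := by
  unfold Q; rw [wd_unique hl]

lemma Q_one {G : Type*} [Group G] (f : Fin 2 → Multiplicative ℤ → G) : Q f 1 = 1 := by
  have := Q_pr f Red.nil
  simpa using this

lemma Q_of {G : Type*} [Group G] (f : Fin 2 → Multiplicative ℤ → G) (i : Fin 2)
    (s : Multiplicative ℤ) (hs : s ≠ 1) :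
    Q f (CoprodI.of (M := fun _ : Fin 2 => Multiplicative ℤ) (i := i) s) = f i s := by
  have hl : Red [⟨i, s⟩] := ⟨by simpa using hs, List.isChain_singleton _⟩
  have := Q_pr f hl
  simpa [pr, ev] using this

lemma Q_inv {G : Type*} [Group G] (f : Fin 2 → Multiplicative ℤ → G)
    (hinv : ∀ i s, f i s⁻¹ = (f i s)⁻¹) (x : P) : Q f x⁻¹ = (Q f x)⁻¹ := by
  set l := wd x with hl
  have hr : Red l := wd_red x
  let l' : List Sy := (l.map (fun s => (⟨s.1, s.2⁻¹⟩ : Sy))).reverse
  have hr' : Red l' := by
    constructor
    · intro s hs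
      simp only [l', List.mem_reverse, List.mem_map] at hs
      obtain ⟨t, ht, rfl⟩ := hs
      simpa using hr.1 t ht
    · simp only [l']
      rw [List.isChain_reverse]
      rw [List.isChain_map]
      have := hr.2
      refine this.imp ?_
      intro a b hab
      exact fun h => hab h.symm
  have hp : pr l' = x⁻¹ := by
    have : ∀ k : List Sy, pr ((k.map (fun s => (⟨s.1, s.2⁻¹⟩ : Sy))).reverse) = (pr k)⁻¹ := by
      intro k
      induction k with
      | nil => simp
      | cons a k ih =>
        rw [List.map_cons, List.reverse_cons, pr_append, ih, pr_cons, pr_cons, pr_nil]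
        simp
    rw [this l, wd_pr]
  have he : ∀ k : List Sy, ev f ((k.map (fun s => (⟨s.1, s.2⁻¹⟩ : Sy))).reverse) = (ev f k)⁻¹ := by
    intro k
    induction k with
    | nil => simp
    | cons a k ih =>
      rw [List.map_cons, List.reverse_cons, ev_append, ih, ev_cons, ev_cons, ev_nil]
      simp [hinv]
  rw [← hp, Q_pr f hr', he]
  rfl

theorem Q_mul {G : Type*} [Group G] (f : ℕ → Fin 2 → Multiplicative ℤ → G)
    (hinv : ∀ m i s, f m i s⁻¹ = (f m i s)⁻¹)
    (hdef : ∀ i s t, ∃ S : Finset ℕ, S.card ≤ 3 ∧ ∀ m ∉ S, f m i (s * t) = f m i s * f m i t)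
    (x y : P) : ∃ S : Finset ℕ, S.card ≤ 3 ∧ ∀ m ∉ S, Q (f m) (x * y) = Q (f m) x * Q (f m) y := by
  obtain ⟨l3, hl3, hp3, S, hS, hev⟩ :=
    merge f hinv hdef (wd x).length (wd x) (wd y) rfl (wd_red x) (wd_red y)
  refine ⟨S, hS, ?_⟩
  intro m hm
  rw [wd_pr, wd_pr] at hp3
  rw [← hp3, Q_pr _ hl3, hev m hm]
  rfl

end Pool.Agent.Helper80.CK
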