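import Mathlib
import Pool.Agent.Helper80.CKWords

set_option autoImplicit false

namespace Pool.Agent.Helper80.CK

open Monoid Monoid.CoprodI Multiplicative

abbrev Nn := Multiplicative (ℤ →₀ ℤ)

noncomputable def shiftHom : Multiplicative ℤ →* MulAut Nn where
  toFun n := AddEquiv.toMultiplicative (Finsupp.domCongr (Equiv.addLeft (toAdd n)))
  map_one' := by
    ext u q
    simp [Finsupp.domCongr]
    rfl
  map_mul' a b := by
    ext u q
    show (toAdd u) _ = (toAdd u) _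
    congr 1
    simp [Equiv.addLeft]
    ring

lemma shift_apply (n : Multiplicative ℤ) (u : ℤ →₀ ℤ) (q : ℤ) :
    toAdd (shiftHom n (ofAdd u)) q = u (q - toAdd n) := by
  show u _ = u _
  congr 1
  simp [Equiv.addLeft]
  ring

/-- the lamplighter group `ℤ ≀ ℤ` -/
abbrev Lm := Nn ⋊[shiftHom] Multiplicative ℤ

noncomputable def bump (m : ℕ) (n : ℤ) : ℤ := (if n = m then 1 else 0) - (if n = -m then 1 else 0)

noncomputable def fc (c : Fin 2) (m : ℕ) (i : Fin 2) (s : Multiplicative ℤ) : Lm :=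
  if i = c then SemidirectProduct.inl (ofAdd (Finsupp.single 0 (toAdd s)))
  else SemidirectProduct.inr (ofAdd (bump m (toAdd s)))

lemma bump_neg (m : ℕ) (n : ℤ) : bump m (-n) = - bump m n := by
  unfold bump
  split_ifs <;> omega

lemma fc_inv (c : Fin 2) (m : ℕ) (i : Fin 2) (s : Multiplicative ℤ) :
    fc c m i s⁻¹ = (fc c m i s)⁻¹ := by
  unfold fc
  split_ifs with h
  · rw [← map_inv, ← ofAdd_neg, toAdd_inv, Finsupp.single_neg]
  · rw [← map_inv, ← ofAdd_neg, toAdd_inv, bump_neg]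

lemma fc_mul (c : Fin 2) (i : Fin 2) (s t : Multiplicative ℤ) :
    ∃ S : Finset ℕ, S.card ≤ 3 ∧ ∀ m ∉ S, fc c m i (s * t) = fc c m i s * fc c m i t := by
  classical
  refine ⟨{(toAdd s).natAbs, (toAdd t).natAbs, (toAdd s + toAdd t).natAbs},
    Finset.card_le_three, ?_⟩
  intro m hm
  simp only [Finset.mem_insert, Finset.mem_singleton, not_or] at hm
  unfold fc
  split_ifs with h
  · rw [← map_mul, ← ofAdd_add, toAdd_mul, Finsupp.single_add]
  · rw [← map_mul, ← ofAdd_add, toAdd_mul]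
    congr 2
    unfold bump
    obtain ⟨h1, h2, h3⟩ := hm
    rw [if_neg (by omega), if_neg (by omega), if_neg (by omega), if_neg (by omega),
      if_neg (by omega), if_neg (by omega)]
    simp

abbrev F2 := FreeGroup (Fin 2)

noncomputable def th : F2 →* P :=
  FreeGroup.lift (fun i => CoprodI.of (M := fun _ : Fin 2 => Multiplicative ℤ) (i := i) (ofAdd 1))

noncomputable def Ph (c : Fin 2) (m : ℕ) (x : F2) : Lm := Q (fc c m) (th x)

lemma Ph_mul (c : Fin 2) (x y : F2) :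
    ∃ S : Finset ℕ, S.card ≤ 3 ∧ ∀ m ∉ S, Ph c m (x * y) = Ph c m x * Ph c m y := by
  unfold Ph
  rw [map_mul]
  exact Q_mul (fun m => fc c m) (fun m i s => fc_inv c m i s) (fun i s t => fc_mul c i s t) _ _

lemma Ph_inv (c : Fin 2) (m : ℕ) (x : F2) : Ph c m x⁻¹ = (Ph c m x)⁻¹ := by
  unfold Ph
  rw [map_inv]
  exact Q_inv _ (fun i s => fc_inv c m i s) _

lemma Ph_one (c : Fin 2) (m : ℕ) : Ph c m 1 = 1 := by
  unfold Ph; rw [map_one, Q_one]

lemma Ph_of (c : Fin 2) (m : ℕ) (i : Fin 2) :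
    Ph c m (FreeGroup.of i) = fc c m i (ofAdd 1) := by
  unfold Ph th
  rw [FreeGroup.lift_apply_of]
  exact Q_of _ i _ (by decide)

lemma Ph_pow (c : Fin 2) (x : F2) (j : ℕ) :
    ∃ S : Finset ℕ, S.card ≤ 3 * j ∧ ∀ m ∉ S, Ph c m (x ^ j) = (Ph c m x) ^ j := by
  classical
  induction j with
  | zero => exact ⟨∅, by simp, fun m _ => by simp [Ph_one]⟩
  | succ j ih =>
    obtain ⟨S, hS, h⟩ := ih
    obtain ⟨S', hS', h'⟩ := Ph_mul c (x ^ j) x
    refine ⟨S ∪ S', le_trans (Finset.card_union_le _ _) (by omega), ?_⟩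
    intro m hm
    rw [Finset.mem_union, not_or] at hm
    rw [pow_succ, h' m hm.2, h m hm.1, pow_succ]

/-- exponent sum -/
noncomputable def ex (c : Fin 2) : F2 →* Multiplicative ℤ :=
  FreeGroup.lift (fun i => if i = c then ofAdd 1 else 1)

def Atom (n : ℕ) (u : ℤ →₀ ℤ) : Prop := ∀ T : Finset ℤ, ∑ q ∈ T, |u q| ≤ n

noncomputable def tot (u : ℤ →₀ ℤ) : ℤ := u.sum (fun _ v => v)

lemma tot_add (u v : ℤ →₀ ℤ) : tot (u + v) = tot u + tot v := by
  unfold tot
  exact Finsupp.sum_add_index' (fun _ => rfl) (fun _ _ _ => rfl)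

lemma tot_single (q n : ℤ) : tot (Finsupp.single q n) = n := by
  unfold tot; simp

lemma Atom.add {n n' : ℕ} {u v : ℤ →₀ ℤ} (hu : Atom n u) (hv : Atom n' v) :
    Atom (n + n') (u + v) := by
  intro T
  calc ∑ q ∈ T, |(u + v) q| ≤ ∑ q ∈ T, (|u q| + |v q|) :=
        Finset.sum_le_sum (fun q _ => abs_add_le _ _)
    _ = ∑ q ∈ T, |u q| + ∑ q ∈ T, |v q| := Finset.sum_add_distrib
    _ ≤ n + n' := add_le_add (hu T) (hv T)
    _ = ((n + n' : ℕ) : ℤ) := by push_cast; ring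

lemma Atom.zero (n : ℕ) : Atom n 0 := by
  intro T; simp

lemma Atom.mono {n n' : ℕ} {u : ℤ →₀ ℤ} (hu : Atom n u) (h : n ≤ n') : Atom n' u := by
  intro T
  exact le_trans (hu T) (by exact_mod_cast h)

lemma Atom.single (q : ℤ) (n : ℤ) (hn : |n| ≤ 1) : Atom 1 (Finsupp.single q n) := by
  intro T
  by_cases h : q ∈ T
  · rw [Finset.sum_eq_single q]
    · simpa using hn
    · intro b _ hb
      rw [Finsupp.single_apply, if_neg hb.symm]; simp
    · intro h'; exact absurd h h'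
  · rw [Finset.sum_eq_zero]
    · simp
    · intro b hb
      rw [Finsupp.single_apply, if_neg (by rintro rfl; exact h hb)]; simp

lemma shift_single (n : Multiplicative ℤ) (q v : ℤ) :
    shiftHom n (ofAdd (Finsupp.single q v)) = ofAdd (Finsupp.single (q + toAdd n) v) := by
  apply toAdd.injective
  ext p
  rw [shift_apply]
  simp only [toAdd_ofAdd, Finsupp.single_apply]
  congr 1
  apply propext
  constructor <;> intro h <;> omega

lemma conj_inl (g : Lm) (u : Nn) :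
    g * SemidirectProduct.inl u * g⁻¹ = SemidirectProduct.inl (shiftHom g.right u) := by
  ext1
  · simp only [SemidirectProduct.mul_left, SemidirectProduct.left_inl,
      SemidirectProduct.mul_right, SemidirectProduct.right_inl, mul_one,
      SemidirectProduct.inv_left]
    rw [← MulAut.mul_apply, ← map_mul, mul_inv_cancel, map_one, MulAut.one_apply]
    rw [mul_comm (g.left), mul_assoc, mul_inv_cancel, mul_one]
  · simp

/-- a conjugate of a generator or of its inverse -/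
def IsCL (x : F2) : Prop := ∃ g : F2, ∃ i : Fin 2,
  x = g * FreeGroup.of i * g⁻¹ ∨ x = g * (FreeGroup.of i)⁻¹ * g⁻¹

lemma ex_of (c i : Fin 2) : ex c (FreeGroup.of i) = if i = c then ofAdd 1 else 1 := by
  unfold ex; rw [FreeGroup.lift_apply_of]

lemma CL_eval_aux (c : Fin 2) (g e : F2) (i : Fin 2)
    (he : e = FreeGroup.of i ∨ e = (FreeGroup.of i)⁻¹) :
    ∃ S : Finset ℕ, S.card ≤ 6 ∧ ∀ m ∉ S, 2 ≤ m → ∃ u : ℤ →₀ ℤ,
      Ph c m (g * e * g⁻¹) = SemidirectProduct.inl (ofAdd u) ∧ Atom 1 u ∧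
        tot u = toAdd (ex c (g * e * g⁻¹)) := by
  classical
  obtain ⟨S1, hS1, h1⟩ := Ph_mul c (g * e) g⁻¹
  obtain ⟨S2, hS2, h2⟩ := Ph_mul c g e
  refine ⟨S1 ∪ S2, le_trans (Finset.card_union_le _ _) (by omega), ?_⟩
  intro m hm hm2
  rw [Finset.mem_union, not_or] at hm
  rw [h1 m hm.1, h2 m hm.2, Ph_inv]
  have hex : ex c (g * e * g⁻¹) = ex c e := by
    rw [map_mul, map_mul, map_inv, mul_comm (ex c g), mul_assoc, mul_inv_cancel, mul_one]
  rw [hex]
  -- value at the letter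
  have hletter : ∃ v : ℤ, |v| ≤ 1 ∧ Ph c m e = SemidirectProduct.inl (ofAdd (Finsupp.single 0 v)) ∧
      v = toAdd (ex c e) := by
    by_cases hic : i = c
    · rcases he with rfl | rfl
      · refine ⟨1, by simp, ?_, ?_⟩
        · rw [Ph_of]; simp [fc, hic]
        · rw [ex_of, if_pos hic]; simp
      · refine ⟨-1, by simp, ?_, ?_⟩
        · rw [Ph_inv, Ph_of]
          simp only [fc, hic, if_true, toAdd_ofAdd]
          rw [← map_inv, ← ofAdd_neg, ← Finsupp.single_neg]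
        · rw [map_inv, ex_of, if_pos hic]; simp
    · have hb : fc c m i (ofAdd 1) = 1 := by
        simp only [fc, hic, if_false, toAdd_ofAdd]
        have : bump m 1 = 0 := by
          unfold bump
          rw [if_neg (by omega), if_neg (by omega)]; simp
        rw [this]; simp
      refine ⟨0, by simp, ?_, ?_⟩
      · rcases he with rfl | rfl
        · rw [Ph_of, hb]; simp
        · rw [Ph_inv, Ph_of, hb]; simp
      · rcases he with rfl | rfl
        · rw [ex_of, if_neg hic]; simp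
        · rw [map_inv, ex_of, if_neg hic]; simp
  obtain ⟨v, hv, hPe, hvex⟩ := hletter
  refine ⟨Finsupp.single (0 + toAdd (Ph c m g).right) v, ?_, Atom.single _ _ hv, ?_⟩
  · rw [hPe, conj_inl, shift_single]
  · rw [tot_single, hvex]

lemma CL_eval (c : Fin 2) (x : F2) (hx : IsCL x) :
    ∃ S : Finset ℕ, S.card ≤ 6 ∧ ∀ m ∉ S, 2 ≤ m → ∃ u : ℤ →₀ ℤ,
      Ph c m x = SemidirectProduct.inl (ofAdd u) ∧ Atom 1 u ∧
        tot u = toAdd (ex c x) := by
  obtain ⟨g, i, h | h⟩ := hx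
  · rw [h]; exact CL_eval_aux c g _ i (Or.inl rfl)
  · rw [h]; exact CL_eval_aux c g _ i (Or.inr rfl)

/-- products of at most `n` conjugates of letters -/
def CC (n : ℕ) (x : F2) : Prop := ∃ L : List F2, L.length ≤ n ∧ (∀ y ∈ L, IsCL y) ∧ L.prod = x

lemma CC_eval (c : Fin 2) (n : ℕ) (x : F2) (hx : CC n x) :
    ∃ S : Finset ℕ, S.card ≤ 9 * n ∧ ∀ m ∉ S, 2 ≤ m → ∃ u : ℤ →₀ ℤ,
      Ph c m x = SemidirectProduct.inl (ofAdd u) ∧ Atom n u ∧
        tot u = toAdd (ex c x) := by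
  classical
  obtain ⟨L, hL, hcl, rfl⟩ := hx
  have key : ∀ L : List F2, (∀ y ∈ L, IsCL y) →
      ∃ S : Finset ℕ, S.card ≤ 9 * L.length ∧ ∀ m ∉ S, 2 ≤ m → ∃ u : ℤ →₀ ℤ,
      Ph c m L.prod = SemidirectProduct.inl (ofAdd u) ∧ Atom L.length u ∧
        tot u = toAdd (ex c L.prod) := by
    intro L
    induction L with
    | nil =>
      intro _
      refine ⟨∅, by simp, fun m _ _ => ⟨0, ?_, Atom.zero _, ?_⟩⟩
      · simp [Ph_one]
      · simp [tot]
    | cons y L ih =>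
      intro hy
      obtain ⟨S, hS, h⟩ := ih (fun z hz => hy z (by simp [hz]))
      obtain ⟨S1, hS1, h1⟩ := CL_eval c y (hy y (by simp))
      obtain ⟨S2, hS2, h2⟩ := Ph_mul c y L.prod
      refine ⟨S ∪ (S1 ∪ S2), ?_, ?_⟩
      · refine le_trans (Finset.card_union_le _ _) ?_
        have := Finset.card_union_le S1 S2
        rw [List.length_cons]
        omega
      · intro m hm hm2
        rw [Finset.mem_union, Finset.mem_union, not_or, not_or] at hm
        obtain ⟨u, hu1, hu2, hu3⟩ := h m hm.1 hm2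
        obtain ⟨v, hv1, hv2, hv3⟩ := h1 m hm.2.1 hm2
        refine ⟨v + u, ?_, ?_, ?_⟩
        · rw [List.prod_cons, h2 m hm.2.2, hu1, hv1, ← map_mul, ← ofAdd_add]
        · rw [List.length_cons, add_comm]; exact hv2.add hu2
        · rw [tot_add, hu3, hv3, List.prod_cons, map_mul, toAdd_mul]
  obtain ⟨S, hS, h⟩ := key L hcl
  refine ⟨S, by omega, fun m hm hm2 => ?_⟩
  obtain ⟨u, hu1, hu2, hu3⟩ := h m hm hm2
  exact ⟨u, hu1, hu2.mono hL, hu3⟩

lemma IsCL.inv {x : F2} (hx : IsCL x) : IsCL x⁻¹ := by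
  obtain ⟨g, i, h | h⟩ := hx
  · exact ⟨g, i, Or.inr (by rw [h]; group)⟩
  · exact ⟨g, i, Or.inl (by rw [h]; group)⟩

lemma IsCL.conj {x : F2} (hx : IsCL x) (y : F2) : IsCL (y * x * y⁻¹) := by
  obtain ⟨g, i, h | h⟩ := hx
  · exact ⟨y * g, i, Or.inl (by rw [h]; group)⟩
  · exact ⟨y * g, i, Or.inr (by rw [h]; group)⟩

lemma CC.inv {n : ℕ} {x : F2} (hx : CC n x) : CC n x⁻¹ := by
  obtain ⟨L, hL, hcl, rfl⟩ := hx
  refine ⟨(L.map (·⁻¹)).reverse, by simpa using hL, ?_, ?_⟩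
  · intro y hy
    rw [List.mem_reverse, List.mem_map] at hy
    obtain ⟨z, hz, rfl⟩ := hy
    exact (hcl z hz).inv
  · rw [List.prod_inv_reverse]

lemma CC.mul {n n' : ℕ} {x y : F2} (hx : CC n x) (hy : CC n' y) : CC (n + n') (x * y) := by
  obtain ⟨L, hL, hcl, rfl⟩ := hx
  obtain ⟨L', hL', hcl', rfl⟩ := hy
  refine ⟨L ++ L', by simp; omega, ?_, by simp⟩
  intro z hz
  rcases List.mem_append.mp hz with h | h
  · exact hcl z h
  · exact hcl' z h

lemma CC.conj {n : ℕ} {x : F2} (hx : CC n x) (y : F2) : CC n (y * x * y⁻¹) := by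
  obtain ⟨L, hL, hcl, rfl⟩ := hx
  refine ⟨L.map (fun z => y * z * y⁻¹), by simpa using hL, ?_, ?_⟩
  · intro z hz
    rw [List.mem_map] at hz
    obtain ⟨w, hw, rfl⟩ := hz
    exact (hcl w hw).conj y
  · clear hL hcl
    induction L with
    | nil => simp
    | cons a L ih => rw [List.map_cons, List.prod_cons, ih, List.prod_cons]; group

lemma CC.one (n : ℕ) : CC n 1 := ⟨[], by simp, by simp, by simp⟩

lemma CC.mono {n n' : ℕ} {x : F2} (hx : CC n x) (h : n ≤ n') : CC n' x := by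
  obtain ⟨L, hL, hcl, rfl⟩ := hx
  exact ⟨L, le_trans hL h, hcl, rfl⟩

end Pool.Agent.Helper80.CK
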