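import Mathlib

set_option autoImplicit false

namespace Pool.Agent.Helper80.CK

/-- partial sums from far left -/
noncomputable def cum (L : ℤ) (u : ℤ → ℤ) (q : ℤ) : ℤ := ∑ i ∈ Finset.Ioc (-L) q, u i

lemma cum_left (L : ℤ) (u : ℤ → ℤ) (q : ℤ) (hq : q ≤ -L) : cum L u q = 0 := by
  unfold cum
  rw [Finset.Ioc_eq_empty (by omega)]
  simp

lemma cum_step (L : ℤ) (u : ℤ → ℤ) (hu : ∀ q : ℤ, q ≤ -L → u q = 0) (q : ℤ) :
    cum L u q - cum L u (q - 1) = u q := by
  by_cases h : q ≤ -L
  · rw [cum_left L u q h, cum_left L u (q-1) (by omega), hu q h]; ring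
  · unfold cum
    have : Finset.Ioc (-L) q = insert q (Finset.Ioc (-L) (q-1)) := by
      ext x; simp only [Finset.mem_Ioc, Finset.mem_insert]; omega
    rw [this, Finset.sum_insert (by simp)]
    ring

lemma cum_steps (L : ℤ) (u : ℤ → ℤ) (hu : ∀ q : ℤ, q ≤ -L → u q = 0) (q : ℤ) (n : ℕ) :
    cum L u q - cum L u (q - n) = ∑ t ∈ Finset.range n, u (q - t) := by
  induction n with
  | zero => simp
  | succ n ih =>
    rw [Finset.sum_range_succ, ← ih]
    have := cum_step L u hu (q - n)
    push_cast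
    have e : q - (n + 1 : ℤ) = q - n - 1 := by ring
    rw [e]
    linarith

lemma cum_right (L : ℤ) (B : ℤ) (hL : B < L) (u : ℤ → ℤ)
    (hu : ∀ q : ℤ, B < |q| → u q = 0) (q : ℤ) (hq : B ≤ q) :
    cum L u q = ∑ i ∈ Finset.Icc (-B) B, u i := by
  unfold cum
  symm
  apply Finset.sum_subset
  · intro x hx
    simp only [Finset.mem_Icc, Finset.mem_Ioc] at hx ⊢
    omega
  · intro x _ hx
    apply hu
    simp only [Finset.mem_Icc, not_and, not_le] at hx
    rw [lt_abs]
    by_cases h : -B ≤ x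
    · left; exact hx h
    · right; omega

theorem linear_lemma (N M E : ℕ) (hM : E * (N - 1) < M)
    (u u' : ℤ → ℤ) (B : ℕ) (hu : ∀ q : ℤ, (B:ℤ) < |q| → u q = 0)
    (hu' : ∀ q : ℤ, (B:ℤ) < |q| → u' q = 0)
    (h1 : ∀ T : Finset ℤ, ∑ q ∈ T, |u (q-1) - u q| ≤ E)
    (h2 : ∀ T : Finset ℤ, ∑ q ∈ T, |u' (q-1) - u' q| ≤ E)
    (h3 : ∀ T : Finset ℤ, ∑ q ∈ T, |u q - u (q - M) - u' q + u' (q - N)| ≤ E)
    (h4 : ∀ T : Finset ℤ, ∑ q ∈ T, |u q| < M) :
    ∃ ρ : ℤ, |∑ q ∈ Finset.Icc (-B:ℤ) B, u q - N * ρ| ≤ E * E := by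
  have hMpos : 0 < M := by omega
  set L : ℤ := B + M + N + 1 with hL
  have huL : ∀ q : ℤ, q ≤ -L → u q = 0 := by
    intro q hq; apply hu; rw [lt_abs]; right; omega
  have huL' : ∀ q : ℤ, q ≤ -L → u' q = 0 := by
    intro q hq; apply hu'; rw [lt_abs]; right; omega
  set C : ℤ → ℤ := fun q => (cum L u q - cum L u (q - M)) - (cum L u' q - cum L u' (q - N))
    with hC
  have hCstep : ∀ q, C q - C (q - 1) = u q - u (q - M) - u' q + u' (q - N) := by
    intro q
    have a1 := cum_step L u huL q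
    have a2 := cum_step L u huL (q - M)
    have a3 := cum_step L u' huL' q
    have a4 := cum_step L u' huL' (q - N)
    have e1 : q - 1 - (M:ℤ) = q - M - 1 := by ring
    have e2 : q - 1 - (N:ℤ) = q - N - 1 := by ring
    simp only [hC, e1, e2]
    linarith
  have hCleft : ∀ q, q ≤ -L → C q = 0 := by
    intro q hq
    simp only [hC]
    rw [cum_left L u q hq, cum_left L u' q hq, cum_left L u (q - M) (by omega),
      cum_left L u' (q - N) (by omega)]
    ring
  have hCsum : ∀ n : ℕ, C (-L + n) = ∑ i ∈ Finset.Ioc (-L) (-L + n),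
      (u i - u (i - M) - u' i + u' (i - N)) := by
    intro n
    induction n with
    | zero => simp [hCleft (-L) le_rfl]
    | succ n ih =>
      have : Finset.Ioc (-L) (-L + (n+1 : ℕ)) = insert (-L + (n+1:ℕ)) (Finset.Ioc (-L) (-L + n)) := by
        ext x; simp only [Finset.mem_Ioc, Finset.mem_insert]; push_cast; omega
      rw [this, Finset.sum_insert (by simp), ← ih]
      have := hCstep (-L + (n+1:ℕ))
      have e : -L + ((n+1 : ℕ):ℤ) - 1 = -L + n := by push_cast; ring
      rw [e] at this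
      linarith
  have hCb : ∀ q, |C q| ≤ E := by
    intro q
    by_cases hq : q ≤ -L
    · rw [hCleft q hq]; simp
    · obtain ⟨n, hn⟩ : ∃ n : ℕ, q = -L + n := ⟨(q + L).toNat, by omega⟩
      rw [hn, hCsum n]
      refine le_trans (Finset.abs_sum_le_sum_abs _ _) (h3 _)
  -- jumps
  have hcardJ : ∀ (v : ℤ → ℤ), (∀ T : Finset ℤ, ∑ q ∈ T, |v (q-1) - v q| ≤ E) →
      ∀ J : Finset ℤ, (∀ i ∈ J, v (i-1) ≠ v i) → J.card ≤ E := by
    intro v hv J hJ
    have := hv J
    have h' : (J.card : ℤ) ≤ ∑ q ∈ J, |v (q-1) - v q| := by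
      rw [Finset.card_eq_sum_ones]
      push_cast
      apply Finset.sum_le_sum
      intro i hi
      have := hJ i hi
      have : v (i-1) - v i ≠ 0 := sub_ne_zero.mpr this
      exact Int.one_le_abs this
    exact_mod_cast le_trans h' this
  set J' : Finset ℤ := (Finset.Icc (-L) L).filter (fun i => u' (i-1) ≠ u' i) with hJ'
  have hJ'card : J'.card ≤ E := hcardJ u' h2 J' (fun i hi => (Finset.mem_filter.mp hi).2)
  have hJ'mem : ∀ i, u' (i-1) ≠ u' i → i ∈ J' := by
    intro i hi
    rw [hJ', Finset.mem_filter]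
    refine ⟨?_, hi⟩
    rw [Finset.mem_Icc]
    by_contra hcon
    apply hi
    rw [hu' (i-1), hu' i]
    · rw [lt_abs]; omega
    · rw [lt_abs]; omega
  obtain ⟨r, hr, hrbad⟩ : ∃ r ∈ Finset.range M,
      r ∉ (J' ×ˢ Finset.range (N-1)).image (fun p => ((p.1 + p.2) % (M:ℤ)).toNat) := by
    by_contra hcon
    push Not at hcon
    have hsub : Finset.range M ⊆
        (J' ×ˢ Finset.range (N-1)).image (fun p => ((p.1 + p.2) % (M:ℤ)).toNat) := hcon
    have := Finset.card_le_card hsub
    have h2' := Finset.card_image_le (s := J' ×ˢ Finset.range (N-1))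
      (f := fun p => ((p.1 + p.2) % (M:ℤ)).toNat)
    rw [Finset.card_range] at this
    rw [Finset.card_product, Finset.card_range] at h2'
    have h3' : J'.card * (N-1) ≤ E * (N-1) := Nat.mul_le_mul_right _ hJ'card
    omega
  rw [Finset.mem_range] at hr
  have hconst1 : ∀ q : ℤ, q % M = r → ∀ t : ℕ, t < N - 1 → u' (q - t - 1) = u' (q - t) := by
    intro q hq t ht
    by_contra hne
    apply hrbad
    rw [Finset.mem_image]
    refine ⟨(q - t, t), ?_, ?_⟩
    · rw [Finset.mem_product]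
      exact ⟨hJ'mem _ hne, Finset.mem_range.mpr ht⟩
    · simp only
      have : q - (t:ℤ) + t = q := by ring
      rw [this, hq]
      simp
  have hconst : ∀ q : ℤ, q % M = r → ∀ t : ℕ, t ≤ N - 1 → u' (q - t) = u' q := by
    intro q hq t
    induction t with
    | zero => intro _; simp
    | succ t ih =>
      intro ht
      have := hconst1 q hq t (by omega)
      have e : q - ((t+1 : ℕ):ℤ) = q - t - 1 := by push_cast; ring
      rw [e, this, ih (by omega)]
  have hW : ∀ q : ℤ, q % M = r → cum L u' q - cum L u' (q - N) = N * u' q := by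
    intro q hq
    rw [cum_steps L u' huL' q N]
    rw [Finset.sum_congr rfl (g := fun _ => u' q)]
    · simp
    · intro t ht
      rw [Finset.mem_range] at ht
      exact hconst q hq t (by omega)
  set qj : ℤ → ℤ := fun j => r + j * M with hqj
  have hqjmod : ∀ j, qj j % M = r := by
    intro j
    simp only [hqj]
    rw [Int.add_mul_emod_self_right]
    exact Int.emod_eq_of_lt (by omega) (by omega)
  set K : ℕ := B + M + N + 2 with hK
  -- telescoping
  have htel : ∀ n : ℕ, cum L u (qj (-K + n)) - cum L u (qj (-K)) =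
      ∑ j ∈ Finset.Ioc (-K:ℤ) (-K + n), (cum L u (qj j) - cum L u (qj j - M)) := by
    intro n
    induction n with
    | zero => simp
    | succ n ih =>
      have : Finset.Ioc (-K:ℤ) (-K + (n+1 : ℕ)) =
          insert (-K + (n+1:ℕ) : ℤ) (Finset.Ioc (-K:ℤ) (-K + n)) := by
        ext x; simp only [Finset.mem_Ioc, Finset.mem_insert]; push_cast; omega
      rw [this, Finset.sum_insert (by simp), ← ih]
      have e : qj (-K + ((n+1 : ℕ):ℤ)) - M = qj (-K + n) := by
        simp only [hqj]; push_cast; ring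
      rw [e]
      ring
  have hKL : ((K:ℤ)) = L + 1 := by rw [hK, hL]; push_cast; ring
  have hM1 : (1:ℤ) ≤ M := by exact_mod_cast hMpos
  have hleft : qj (-K) ≤ -L := by
    simp only [hqj]
    have hr' : (r:ℤ) < M := by exact_mod_cast hr
    have hLpos : 0 ≤ L := by rw [hL]; positivity
    nlinarith
  have hright : (B:ℤ) ≤ qj K := by
    simp only [hqj]
    have h0 : (0:ℤ) ≤ r := by positivity
    have : (K:ℤ) ≤ K * M := by nlinarith [show (0:ℤ) ≤ K by positivity]
    have : (B:ℤ) ≤ K := by rw [hK]; push_cast; omega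
    linarith
  have heps : ∑ i ∈ Finset.Icc (-B:ℤ) B, u i =
      ∑ j ∈ Finset.Ioc (-K:ℤ) K, (cum L u (qj j) - cum L u (qj j - M)) := by
    have := htel (2*K)
    have e : (-K:ℤ) + ((2*K : ℕ):ℤ) = K := by push_cast; ring
    rw [e, cum_left L u _ hleft, cum_right L B (by rw [hL]; omega) u hu _ hright] at this
    rw [← this]; ring
  have hterm : ∀ j, cum L u (qj j) - cum L u (qj j - M) = N * u' (qj j) + C (qj j) := by
    intro j
    have := hW (qj j) (hqjmod j)
    simp only [hC]
    linarith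
  classical
  set QQ : Finset ℤ := (Finset.Ioc (-K:ℤ) K).filter
    (fun j => ∃ t ∈ Finset.range M, u (qj j - t) ≠ 0) with hQQ
  have hzero : ∀ j ∈ Finset.Ioc (-K:ℤ) K, j ∉ QQ →
      cum L u (qj j) - cum L u (qj j - M) = 0 := by
    intro j hj hjQ
    rw [cum_steps L u huL]
    apply Finset.sum_eq_zero
    intro t ht
    by_contra hne
    apply hjQ
    rw [hQQ, Finset.mem_filter]
    exact ⟨hj, t, ht, hne⟩
  have heps2 : ∑ i ∈ Finset.Icc (-B:ℤ) B, u i = ∑ j ∈ QQ, (N * u' (qj j) + C (qj j)) := by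
    rw [heps]
    rw [← Finset.sum_filter_add_sum_filter_not (Finset.Ioc (-K:ℤ) K)
      (fun j => ∃ t ∈ Finset.range M, u (qj j - t) ≠ 0)]
    rw [Finset.sum_eq_zero (s := Finset.filter (fun j => ¬ ∃ t ∈ Finset.range M, u (qj j - t) ≠ 0) _)]
    · rw [add_zero]
      apply Finset.sum_congr rfl
      intro j _
      exact hterm j
    · intro j hj
      rw [Finset.mem_filter] at hj
      apply hzero j hj.1
      rw [hQQ, Finset.mem_filter]
      exact fun h => hj.2 h.2
  refine ⟨∑ j ∈ QQ, u' (qj j), ?_⟩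
  rw [heps2, Finset.sum_add_distrib, Finset.mul_sum]
  have e : ∑ x ∈ QQ, ↑N * u' (qj x) + ∑ x ∈ QQ, C (qj x) - ∑ i ∈ QQ, ↑N * u' (qj i) =
      ∑ x ∈ QQ, C (qj x) := by ring
  rw [e]
  -- cardinality of QQ
  have hjump : ∀ j ∈ QQ, ∃ t : ℕ, t < M ∧ u (qj j - t - 1) ≠ u (qj j - t) := by
    intro j hj
    by_contra hcon
    push Not at hcon
    have hall : ∀ t : ℕ, t ≤ M → u (qj j - t) = u (qj j) := by
      intro t
      induction t with
      | zero => intro _; simp
      | succ t ih =>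
        intro ht
        have e : qj j - ((t+1 : ℕ):ℤ) = qj j - t - 1 := by push_cast; ring
        rw [e, hcon t (by omega), ih (by omega)]
    obtain ⟨t0, ht0, hne⟩ := (Finset.mem_filter.mp hj).2
    rw [Finset.mem_range] at ht0
    rw [hall t0 ht0.le] at hne
    have h4' := h4 ((Finset.range M).image (fun t : ℕ => qj j - (t:ℤ)))
    rw [Finset.sum_image (by intro a _ b _ hab; simp only at hab; omega)] at h4'
    rw [Finset.sum_congr rfl (g := fun _ => |u (qj j)|)] at h4'
    · simp only [Finset.sum_const, Finset.card_range, nsmul_eq_mul] at h4'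
      have := Int.one_le_abs hne
      nlinarith
    · intro t ht
      rw [Finset.mem_range] at ht
      rw [hall t ht.le]
  choose! g hg using hjump
  have hcardQ : QQ.card ≤ E := by
    have hinj : Set.InjOn (fun j => qj j - (g j : ℤ)) QQ := by
      intro j hj j' hj' hjj
      simp only [hqj] at hjj
      have b1 := (hg j hj).1
      have b2 := (hg j' hj').1
      by_contra hne
      rcases lt_or_gt_of_ne hne with hlt | hlt
      · have : (j:ℤ) + 1 ≤ j' := hlt
        nlinarith
      · have : (j':ℤ) + 1 ≤ j := hlt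
        nlinarith
    rw [← Finset.card_image_of_injOn hinj]
    apply hcardJ u h1
    intro i hi
    rw [Finset.mem_image] at hi
    obtain ⟨j, hj, rfl⟩ := hi
    exact (hg j hj).2
  calc |∑ x ∈ QQ, C (qj x)| ≤ ∑ x ∈ QQ, |C (qj x)| := Finset.abs_sum_le_sum_abs _ _
    _ ≤ ∑ x ∈ QQ, (E:ℤ) := Finset.sum_le_sum (fun x _ => hCb _)
    _ = QQ.card * E := by simp
    _ ≤ E * E := by
      have : (QQ.card : ℤ) ≤ E := by exact_mod_cast hcardQ
      nlinarith

end Pool.Agent.Helper80.CK
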