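import Mathlib
import Pool.Agent.Helper80.CKLamp
import Pool.Agent.Helper80.CKLinear

set_option autoImplicit false

namespace Pool.Agent.Helper80.CK

open Monoid Monoid.CoprodI Multiplicative

lemma exists_bound (u v : ℤ →₀ ℤ) : ∃ B : ℕ, (∀ q : ℤ, (B:ℤ) < |q| → u q = 0) ∧
    (∀ q : ℤ, (B:ℤ) < |q| → v q = 0) := by
  classical
  refine ⟨(u.support ∪ v.support).sup Int.natAbs, ?_, ?_⟩
  · intro q hq
    by_contra h
    have : q ∈ u.support ∪ v.support := Finset.mem_union_left _ (Finsupp.mem_support_iff.mpr h)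
    have := Finset.le_sup (f := Int.natAbs) this
    rw [Int.abs_eq_natAbs] at hq
    omega
  · intro q hq
    by_contra h
    have : q ∈ u.support ∪ v.support := Finset.mem_union_right _ (Finsupp.mem_support_iff.mpr h)
    have := Finset.le_sup (f := Int.natAbs) this
    rw [Int.abs_eq_natAbs] at hq
    omega

lemma tot_eq (u : ℤ →₀ ℤ) (B : ℕ) (hB : ∀ q : ℤ, (B:ℤ) < |q| → u q = 0) :
    ∑ q ∈ Finset.Icc (-B:ℤ) B, u q = tot u := by
  unfold tot Finsupp.sum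
  symm
  apply Finset.sum_subset
  · intro q hq
    rw [Finsupp.mem_support_iff] at hq
    rw [Finset.mem_Icc]
    by_contra h
    apply hq; apply hB
    rw [lt_abs]; omega
  · intro q _ hq
    simpa using hq

theorem core (c : Fin 2) (D N M : ℕ) (k X Y r s η1 η2 η3 : F2)
    (hX : X = r * k ^ N) (hY : Y = s * k ^ M)
    (hr : CC (D * N) r) (hs : CC (D * M) s)
    (h1 : k * X = η1 * (X * k)) (h2 : k * Y = η2 * (Y * k)) (h3 : Y * X = η3 * (X * Y))
    (hη1 : CC (2 * D) η1) (hη2 : CC (2 * D) η2) (hη3 : CC (2 * D) η3)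
    (hM1 : 2 * D * (N - 1) < M) (hM2 : D * N < M) :
    ∃ S : Finset ℕ, S.card ≤ 9 * (D * N) + 9 * (D * M) + 54 * D + 3 * N + 3 * M + 33 ∧
      ∀ m ∉ S, 2 ≤ m → (Ph c m k).right = ofAdd 1 →
      ∃ ρ : ℤ, |toAdd (ex c r) - N * ρ| ≤ (2 * D : ℕ) * (2 * D : ℕ) := by
  classical
  obtain ⟨Sr, hSr, evr⟩ := CC_eval c _ r hr
  obtain ⟨Ss, hSs, evs⟩ := CC_eval c _ s hs
  obtain ⟨S1, hS1, ev1⟩ := CC_eval c _ η1 hη1
  obtain ⟨S2, hS2, ev2⟩ := CC_eval c _ η2 hη2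
  obtain ⟨S3, hS3, ev3⟩ := CC_eval c _ η3 hη3
  obtain ⟨SN, hSN, evN⟩ := Ph_pow c k N
  obtain ⟨SM, hSM, evM⟩ := Ph_pow c k M
  obtain ⟨a1, ha1, b1⟩ := Ph_mul c r (k ^ N)
  obtain ⟨a2, ha2, b2⟩ := Ph_mul c s (k ^ M)
  obtain ⟨a3, ha3, b3⟩ := Ph_mul c k X
  obtain ⟨a4, ha4, b4⟩ := Ph_mul c X k
  obtain ⟨a5, ha5, b5⟩ := Ph_mul c η1 (X * k)
  obtain ⟨a6, ha6, b6⟩ := Ph_mul c k Y
  obtain ⟨a7, ha7, b7⟩ := Ph_mul c Y k
  obtain ⟨a8, ha8, b8⟩ := Ph_mul c η2 (Y * k)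
  obtain ⟨a9, ha9, b9⟩ := Ph_mul c Y X
  obtain ⟨a10, ha10, b10⟩ := Ph_mul c X Y
  obtain ⟨a11, ha11, b11⟩ := Ph_mul c η3 (X * Y)
  refine ⟨Sr ∪ (Ss ∪ (S1 ∪ (S2 ∪ (S3 ∪ (SN ∪ (SM ∪ (a1 ∪ (a2 ∪ (a3 ∪ (a4 ∪ (a5 ∪ (a6 ∪ (a7 ∪
    (a8 ∪ (a9 ∪ (a10 ∪ a11)))))))))))))))), ?_, ?_⟩
  · have hu := fun (A B : Finset ℕ) => Finset.card_union_le A B
    refine le_trans (hu _ _) ?_
    refine le_trans (Nat.add_le_add_left (hu _ _) _) ?_
    refine le_trans (Nat.add_le_add_left (Nat.add_le_add_left (hu _ _) _) _) ?_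
    have e1 := hu S2 (S3 ∪ (SN ∪ (SM ∪ (a1 ∪ (a2 ∪ (a3 ∪ (a4 ∪ (a5 ∪ (a6 ∪ (a7 ∪
    (a8 ∪ (a9 ∪ (a10 ∪ a11)))))))))))))
    have e2 := hu S3 (SN ∪ (SM ∪ (a1 ∪ (a2 ∪ (a3 ∪ (a4 ∪ (a5 ∪ (a6 ∪ (a7 ∪
    (a8 ∪ (a9 ∪ (a10 ∪ a11))))))))))))
    have e3 := hu SN (SM ∪ (a1 ∪ (a2 ∪ (a3 ∪ (a4 ∪ (a5 ∪ (a6 ∪ (a7 ∪
    (a8 ∪ (a9 ∪ (a10 ∪ a11)))))))))))
    have e4 := hu SM (a1 ∪ (a2 ∪ (a3 ∪ (a4 ∪ (a5 ∪ (a6 ∪ (a7 ∪
    (a8 ∪ (a9 ∪ (a10 ∪ a11))))))))))
    have e5 := hu a1 (a2 ∪ (a3 ∪ (a4 ∪ (a5 ∪ (a6 ∪ (a7 ∪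
    (a8 ∪ (a9 ∪ (a10 ∪ a11)))))))))
    have e6 := hu a2 (a3 ∪ (a4 ∪ (a5 ∪ (a6 ∪ (a7 ∪
    (a8 ∪ (a9 ∪ (a10 ∪ a11))))))))
    have e7 := hu a3 (a4 ∪ (a5 ∪ (a6 ∪ (a7 ∪
    (a8 ∪ (a9 ∪ (a10 ∪ a11)))))))
    have e8 := hu a4 (a5 ∪ (a6 ∪ (a7 ∪
    (a8 ∪ (a9 ∪ (a10 ∪ a11))))))
    have e9 := hu a5 (a6 ∪ (a7 ∪
    (a8 ∪ (a9 ∪ (a10 ∪ a11)))))
    have e10 := hu a6 (a7 ∪ (a8 ∪ (a9 ∪ (a10 ∪ a11))))
    have e11 := hu a7 (a8 ∪ (a9 ∪ (a10 ∪ a11)))
    have e12 := hu a8 (a9 ∪ (a10 ∪ a11))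
    have e13 := hu a9 (a10 ∪ a11)
    have e14 := hu a10 a11
    have q1 : 9 * (2 * D) = 18 * D := by ring
    rw [q1] at hS1 hS2 hS3
    omega
  · intro m hm hm2 hk
    simp only [Finset.mem_union, not_or] at hm
    obtain ⟨mr, ms, m1, m2, m3, mN, mM, n1, n2, n3, n4, n5, n6, n7, n8, n9, n10, n11⟩ := hm
    obtain ⟨u, hu1, hu2, hu3⟩ := evr m mr hm2
    obtain ⟨v, hv1, hv2, hv3⟩ := evs m ms hm2
    obtain ⟨w1, hw11, hw12, -⟩ := ev1 m m1 hm2
    obtain ⟨w2, hw21, hw22, -⟩ := ev2 m m2 hm2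
    obtain ⟨w3, hw31, hw32, -⟩ := ev3 m m3 hm2
    set κ := Ph c m k with hκ
    have eX : Ph c m X = SemidirectProduct.inl (ofAdd u) * κ ^ N := by
      rw [hX, b1 m n1, hu1, evN m mN]
    have eY : Ph c m Y = SemidirectProduct.inl (ofAdd v) * κ ^ M := by
      rw [hY, b2 m n2, hv1, evM m mM]
    have hright : ∀ j : ℕ, (κ ^ j).right = ofAdd (j:ℤ) := by
      intro j
      have : (κ ^ j).right = κ.right ^ j :=
        map_pow (SemidirectProduct.rightHom : Lm →* Multiplicative ℤ) κ j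
      rw [this, hk, ← ofAdd_nsmul]; simp
    have g1 : κ * Ph c m X = SemidirectProduct.inl (ofAdd w1) * (Ph c m X * κ) := by
      rw [← hw11, hκ, ← b3 m n3, ← b4 m n4, ← b5 m n5, h1]
    have g2 : κ * Ph c m Y = SemidirectProduct.inl (ofAdd w2) * (Ph c m Y * κ) := by
      rw [← hw21, hκ, ← b6 m n6, ← b7 m n7, ← b8 m n8, h2]
    have g3 : Ph c m Y * Ph c m X = SemidirectProduct.inl (ofAdd w3) * (Ph c m X * Ph c m Y) := by
      rw [← hw31, ← b9 m n9, ← b10 m n10, ← b11 m n11, h3]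
    -- shift relation for commutation with k
    have comm : ∀ (x w : ℤ →₀ ℤ) (Z : Lm) (j : ℕ), Z = SemidirectProduct.inl (ofAdd x) * κ ^ j →
        κ * Z = SemidirectProduct.inl (ofAdd w) * (Z * κ) →
        ∀ q, x (q - 1) - x q = w q := by
      intro x w Z j hZ hc q
      have hcj : κ * SemidirectProduct.inl (ofAdd x) * κ⁻¹ =
          SemidirectProduct.inl (ofAdd w) * SemidirectProduct.inl (ofAdd x) := by
        have : κ * (SemidirectProduct.inl (ofAdd x) * κ ^ j) =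
            SemidirectProduct.inl (ofAdd w) * (SemidirectProduct.inl (ofAdd x) * κ ^ j * κ) := by
          rw [← hZ]; exact hc
        have h' : κ * SemidirectProduct.inl (ofAdd x) * κ ^ j =
            SemidirectProduct.inl (ofAdd w) * SemidirectProduct.inl (ofAdd x) * κ * κ ^ j := by
          rw [mul_assoc κ, this]
          rw [mul_assoc (SemidirectProduct.inl (ofAdd x)), ← pow_succ, pow_succ']
          simp only [mul_assoc]
        have h'' := mul_right_cancel h'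
        rw [h'']
        group
      rw [conj_inl, ← map_mul] at hcj
      have h0 := SemidirectProduct.inl_injective hcj
      have h0' := congrArg (fun z : Nn => (toAdd z : ℤ →₀ ℤ) q) h0
      simp only [toAdd_mul, toAdd_ofAdd] at h0'
      rw [shift_apply, hk] at h0'
      simp only [toAdd_ofAdd, Finsupp.add_apply] at h0'
      linarith
    have r1 := comm u w1 _ N eX g1
    have r2 := comm v w2 _ M eY g2
    have r3 : ∀ q, u q - u (q - M) - v q + v (q - N) = - w3 q := by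
      intro q
      rw [eX, eY] at g3
      have cM : κ ^ M * SemidirectProduct.inl (ofAdd u) =
          SemidirectProduct.inl (shiftHom (ofAdd (M:ℤ)) (ofAdd u)) * κ ^ M := by
        have := conj_inl (κ ^ M) (ofAdd u)
        rw [hright M] at this
        rw [← this]; group
      have cN : κ ^ N * SemidirectProduct.inl (ofAdd v) =
          SemidirectProduct.inl (shiftHom (ofAdd (N:ℤ)) (ofAdd v)) * κ ^ N := by
        have := conj_inl (κ ^ N) (ofAdd v)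
        rw [hright N] at this
        rw [← this]; group
      have l1 : SemidirectProduct.inl (ofAdd v) * κ ^ M * (SemidirectProduct.inl (ofAdd u) * κ ^ N)
          = SemidirectProduct.inl (ofAdd v) * SemidirectProduct.inl (shiftHom (ofAdd (M:ℤ)) (ofAdd u))
            * κ ^ (M + N) := by
        rw [pow_add]
        calc _ = SemidirectProduct.inl (ofAdd v) * (κ ^ M * SemidirectProduct.inl (ofAdd u)) * κ ^ N := by
              simp only [mul_assoc]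
          _ = _ := by rw [cM]; simp only [mul_assoc]
      have l2 : SemidirectProduct.inl (ofAdd u) * κ ^ N * (SemidirectProduct.inl (ofAdd v) * κ ^ M)
          = SemidirectProduct.inl (ofAdd u) * SemidirectProduct.inl (shiftHom (ofAdd (N:ℤ)) (ofAdd v))
            * κ ^ (M + N) := by
        rw [add_comm, pow_add]
        calc _ = SemidirectProduct.inl (ofAdd u) * (κ ^ N * SemidirectProduct.inl (ofAdd v)) * κ ^ M := by
              simp only [mul_assoc]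
          _ = _ := by rw [cN]; simp only [mul_assoc]
      rw [l1, l2, ← mul_assoc] at g3
      have g3' := mul_right_cancel g3
      rw [← map_mul, ← map_mul, ← map_mul] at g3'
      have g4 := SemidirectProduct.inl_injective g3'
      have g5 := congrArg (fun z : Nn => (toAdd z : ℤ →₀ ℤ) q) g4
      simp only [toAdd_mul, toAdd_ofAdd, Finsupp.add_apply] at g5
      rw [shift_apply, shift_apply] at g5
      simp only [toAdd_ofAdd] at g5
      linarith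
    obtain ⟨B, hB1, hB2⟩ := exists_bound u v
    obtain ⟨ρ, hρ⟩ := linear_lemma N M (2 * D) hM1 u v B hB1 hB2
      (by
        intro T
        rw [Finset.sum_congr rfl (fun q _ => by rw [r1 q])]
        exact hw12 T)
      (by
        intro T
        rw [Finset.sum_congr rfl (fun q _ => by rw [r2 q])]
        exact hw22 T)
      (by
        intro T
        rw [Finset.sum_congr rfl (fun q _ => by rw [r3 q, abs_neg])]
        exact hw32 T)
      (by
        intro T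
        exact lt_of_le_of_lt (hu2 T) (by exact_mod_cast hM2))
    refine ⟨ρ, ?_⟩
    rw [tot_eq u B hB1, hu3] at hρ
    exact hρ

end Pool.Agent.Helper80.CK
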