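import Mathlib
import Pool.Agent.Helper80.CKCore

set_option autoImplicit false

namespace Pool.Agent.Helper80.CK

open Monoid Monoid.CoprodI Multiplicative

lemma good_n (β : ℝ) (hβ : Irrational β) (S : Finset ℝ) :
    ∃ δ : ℝ, 0 < δ ∧ ∀ n0 : ℕ, ∃ n : ℕ, n0 ≤ n ∧ ∀ s ∈ S, δ ≤ |Int.fract (n * β) - s| := by
  classical
  have hmin : ∀ J : ℕ, ∃ δ : ℝ, 0 < δ ∧ ∀ j : ℕ, 1 ≤ j → j ≤ J → ∀ z : ℤ, 2 * δ ≤ |j * β - z| := by
    intro J
    induction J with
    | zero => exact ⟨1, one_pos, fun j h1 h2 => by omega⟩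
    | succ J ih =>
      obtain ⟨δ, hδ, h⟩ := ih
      have hirr : Irrational (((J+1 : ℕ) : ℝ) * β) := hβ.natCast_mul (by omega)
      have hpos : 0 < |((J+1 : ℕ) : ℝ) * β - round (((J+1 : ℕ) : ℝ) * β)| := by
        rw [abs_pos, sub_ne_zero]
        exact hirr.ne_int _
      refine ⟨min δ (|((J+1 : ℕ) : ℝ) * β - round (((J+1 : ℕ) : ℝ) * β)| / 2),
        lt_min hδ (by linarith), ?_⟩
      intro j h1 h2 z
      rcases Nat.lt_or_ge j (J+1) with hlt | hge
      · have := h j h1 (by omega) z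
        have := min_le_left δ (|((J+1 : ℕ) : ℝ) * β - round (((J+1 : ℕ) : ℝ) * β)| / 2)
        linarith
      · have hj : j = J + 1 := by omega
        subst hj
        have := min_le_right δ (|((J+1 : ℕ) : ℝ) * β - round (((J+1 : ℕ) : ℝ) * β)| / 2)
        have := round_le (((J+1 : ℕ) : ℝ) * β) z
        linarith
  obtain ⟨δ, hδ, h⟩ := hmin S.card
  refine ⟨δ, hδ, ?_⟩
  intro n0
  by_contra hcon
  push Not at hcon
  choose! g hg1 hg2 using hcon
  -- pigeonhole on n0, ..., n0 + card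
  have hmaps : ∀ j ∈ Finset.range (S.card + 1), g (n0 + j) ∈ S := fun j _ => hg1 _ (by omega)
  have key : ∀ i j : ℕ, i < j → j < S.card + 1 → g (n0 + i) = g (n0 + j) → False := by
    intro i j hlt hj hgij
    have a1 := hg2 (n0 + i) (by omega)
    have a2 := hg2 (n0 + j) (by omega)
    rw [← hgij] at a2
    have h' := h (j - i) (by omega) (by omega)
      (⌊((n0 + j : ℕ) : ℝ) * β⌋ - ⌊((n0 + i : ℕ) : ℝ) * β⌋)
    have e : ((j - i : ℕ) : ℝ) * β - ((⌊((n0 + j : ℕ) : ℝ) * β⌋ - ⌊((n0 + i : ℕ) : ℝ) * β⌋ : ℤ) : ℝ)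
        = (Int.fract (((n0 + j : ℕ) : ℝ) * β) - g (n0 + i)) -
          (Int.fract (((n0 + i : ℕ) : ℝ) * β) - g (n0 + i)) := by
      unfold Int.fract
      push_cast [Nat.cast_sub hlt.le]
      ring
    rw [e] at h'
    have := abs_sub (Int.fract (((n0 + j : ℕ) : ℝ) * β) - g (n0 + i))
          (Int.fract (((n0 + i : ℕ) : ℝ) * β) - g (n0 + i))
    linarith
  obtain ⟨i, hi, j, hj, hij, hgij⟩ := Finset.exists_ne_map_eq_of_card_lt_of_maps_to
    (s := Finset.range (S.card + 1)) (t := S) (by simp) hmaps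
  rw [Finset.mem_range] at hi hj
  rcases lt_or_gt_of_ne hij with hlt | hlt
  · exact key i j hlt hj hgij
  · exact key j i hlt hi hgij.symm

/-- the special element -/
noncomputable def kk (p n : ℕ) : ℕ → F2
  | 0 => FreeGroup.of 0 ^ p * FreeGroup.of 1 ^ n
  | (j+1) => FreeGroup.of 0 ^ (j+2) * FreeGroup.of 1 ^ (j+2) * kk p n j

def kl (p n : ℕ) : ℕ → List Sy
  | 0 => [⟨0, ofAdd (p:ℤ)⟩, ⟨1, ofAdd (n:ℤ)⟩]
  | (j+1) => ⟨0, ofAdd ((j+2 : ℕ):ℤ)⟩ :: ⟨1, ofAdd ((j+2 : ℕ):ℤ)⟩ :: kl p n j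

lemma th_pow (i : Fin 2) (n : ℕ) : th (FreeGroup.of i ^ n) =
    CoprodI.of (M := fun _ : Fin 2 => Multiplicative ℤ) (i := i) (ofAdd (n:ℤ)) := by
  unfold th
  rw [map_pow, FreeGroup.lift_apply_of, ← map_pow, ← ofAdd_nsmul]
  simp

lemma th_kk (p n : ℕ) (j : ℕ) : th (kk p n j) = pr (kl p n j) := by
  induction j with
  | zero =>
    rw [kk, kl, map_mul, th_pow, th_pow, pr_cons, pr_cons, pr_nil, mul_one]
  | succ j ih =>
    rw [kk, kl, map_mul, map_mul, th_pow, th_pow, pr_cons, pr_cons, ih, mul_assoc]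

lemma kl_head (p n : ℕ) (j : ℕ) : ∀ y ∈ (kl p n j).head?, y.1 = 0 := by
  intro y hy
  cases j with
  | zero => simp [kl] at hy; rw [← hy]
  | succ j => simp [kl] at hy; rw [← hy]

lemma kl_red (p n : ℕ) (hp : p ≠ 0) (hn : n ≠ 0) (j : ℕ) : Red (kl p n j) := by
  induction j with
  | zero =>
    constructor
    · intro s hs
      simp only [kl, List.mem_cons, List.not_mem_nil, or_false] at hs
      rcases hs with rfl | rfl
      · simpa using hp
      · simpa using hn
    · simp [kl]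
  | succ j ih =>
    constructor
    · intro s hs
      rw [kl, List.mem_cons, List.mem_cons] at hs
      rcases hs with rfl | rfl | hs
      · simp only [ne_eq, ofAdd_eq_one]; omega
      · simp only [ne_eq, ofAdd_eq_one]; omega
      · exact ih.1 s hs
    · rw [kl, List.isChain_cons, List.isChain_cons]
      refine ⟨?_, ?_, ih.2⟩
      · intro y hy
        simp at hy
        rw [← hy]
        simp
      · intro y hy
        have := kl_head p n j y hy
        rw [this]
        simp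

lemma bump_nat (m : ℕ) (hm : 1 ≤ m) (n : ℕ) : bump m n = if n = m then 1 else 0 := by
  unfold bump
  split_ifs <;> omega

lemma ev_right (c : Fin 2) (m : ℕ) (hm : 1 ≤ m) (p n : ℕ) (hp : p ≠ m) (hn : n ≠ m) (j : ℕ) :
    (ev (fc c m) (kl p n j)).right =
      ofAdd (∑ i ∈ Finset.range j, (if i + 2 = m then (1:ℤ) else 0)) := by
  induction j with
  | zero =>
    rw [kl, ev_cons, ev_cons, ev_nil]
    simp only [mul_one, SemidirectProduct.mul_right, Finset.range_zero, Finset.sum_empty]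
    have h1 := bump_nat m hm p
    have h2 := bump_nat m hm n
    rw [if_neg hp] at h1
    rw [if_neg hn] at h2
    fin_cases c <;> simp [fc, h1, h2]
  | succ j ih =>
    rw [kl, ev_cons, ev_cons, SemidirectProduct.mul_right, SemidirectProduct.mul_right, ih,
      Finset.sum_range_succ, ofAdd_add]
    have h1 := bump_nat m hm (j+2)
    have : (fc c m 0 (ofAdd (((j+2 : ℕ)) : ℤ))).right *
        (fc c m 1 (ofAdd (((j+2 : ℕ)) : ℤ))).right =
        ofAdd (if j + 2 = m then (1:ℤ) else 0) := by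
      rw [← h1]
      fin_cases c <;> simp [fc]
    rw [← mul_assoc, this, mul_comm]

lemma Ph_kk_right (c : Fin 2) (m s p n : ℕ) (hm : 2 ≤ m) (hms : m < s + 2) (hp : s + 2 ≤ p)
    (hn : s + 2 ≤ n) : (Ph c m (kk p n s)).right = ofAdd 1 := by
  unfold Ph
  rw [th_kk, Q_pr _ (kl_red p n (by omega) (by omega) s), ev_right c m (by omega) p n (by omega)
    (by omega)]
  congr 1
  rw [Finset.sum_eq_single (m - 2)]
  · rw [if_pos (by omega)]
  · intro b _ hb
    rw [if_neg (by omega)]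
  · intro h
    exfalso; apply h
    rw [Finset.mem_range]; omega

/-- `2 + 3 + ... + (s+1)` -/
def Ts : ℕ → ℕ
  | 0 => 0
  | (j+1) => (j+2) + Ts j

lemma ex_kk (p n s : ℕ) : toAdd (ex 0 (kk p n s)) = (p + Ts s : ℕ) ∧
    toAdd (ex 1 (kk p n s)) = (n + Ts s : ℕ) := by
  induction s with
  | zero =>
    constructor
    · rw [kk, map_mul, map_pow, map_pow, ex_of, ex_of]; simp [Ts]
    · rw [kk, map_mul, map_pow, map_pow, ex_of, ex_of]; simp [Ts]
  | succ s ih =>
    constructor
    · simp only [kk, map_mul, map_pow, ex_of, toAdd_mul, toAdd_pow, ih.1]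
      simp [Ts]; ring
    · simp only [kk, map_mul, map_pow, ex_of, toAdd_mul, toAdd_pow, ih.2]
      simp [Ts]; ring

lemma CL_ex (c : Fin 2) {x : F2} (hx : IsCL x) : |toAdd (ex c x)| ≤ 1 := by
  obtain ⟨g, i, h | h⟩ := hx
  · have : ex c x = ex c (FreeGroup.of i) := by
      rw [h, map_mul, map_mul, map_inv, mul_comm (ex c g), mul_assoc, mul_inv_cancel, mul_one]
    rw [this, ex_of]
    split_ifs <;> simp
  · have : ex c x = (ex c (FreeGroup.of i))⁻¹ := by
      rw [h, map_mul, map_mul, map_inv, map_inv, mul_comm (ex c g), mul_assoc, mul_inv_cancel,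
        mul_one]
    rw [this, ex_of]
    split_ifs <;> simp

lemma CC_ex (c : Fin 2) {n : ℕ} {x : F2} (hx : CC n x) : |toAdd (ex c x)| ≤ n := by
  obtain ⟨L, hL, hcl, rfl⟩ := hx
  have : ∀ L : List F2, (∀ y ∈ L, IsCL y) → |toAdd (ex c L.prod)| ≤ L.length := by
    intro L
    induction L with
    | nil => intro _; simp
    | cons a L ih =>
      intro h
      rw [List.prod_cons, map_mul, toAdd_mul, List.length_cons]
      have h1 := CL_ex c (h a (by simp))
      have h2 := ih (fun y hy => h y (by simp [hy]))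
      have := abs_add_le (toAdd (ex c a)) (toAdd (ex c L.prod))
      push_cast
      linarith
  exact le_trans (this L hcl) (by exact_mod_cast hL)

end Pool.Agent.Helper80.CK
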