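import Mathlib
import Pool.Agent.Helper80.CKFinal

set_option autoImplicit false

namespace Pool.Agent.Helper80.CK

open Multiplicative

lemma phi_formula (β : ℝ) (φ : F2 →* Multiplicative ℝ)
    (h0 : φ (FreeGroup.of 0) = ofAdd (-1 : ℝ)) (h1 : φ (FreeGroup.of 1) = ofAdd β) (x : F2) :
    toAdd (φ x) = -((toAdd (ex 0 x) : ℤ) : ℝ) + β * ((toAdd (ex 1 x) : ℤ) : ℝ) := by
  induction x using FreeGroup.induction_on with
  | C1 => simp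
  | of i =>
    fin_cases i
    · simp [h0, ex_of]
    · simp [h1, ex_of]
  | inv_of i ih =>
    simp only [map_inv, toAdd_inv, ih]
    push_cast; ring
  | mul x y hx hy =>
    simp only [map_mul, toAdd_mul, hx, hy]
    push_cast; ring

theorem main (β : ℝ) (hβ1 : 1 < β) (hβ : Irrational β) (φ : F2 →* Multiplicative ℝ)
    (h0 : φ (FreeGroup.of 0) = ofAdd (-1 : ℝ)) (h1 : φ (FreeGroup.of 1) = ofAdd β)
    (K : Set F2) (hK : K = {w | 0 ≤ toAdd (φ w) ∧ toAdd (φ w) < 1}) :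
    ¬ ∃ Ψ : FreeGroup K → F2, ∃ N : ℕ,
      (∀ w, Ψ w ∈ K) ∧
      (∀ k : K, Ψ (FreeGroup.of k) = (k : F2)) ∧
      ∀ w₁ w₂ : FreeGroup K, ∃ L : List F2, L.length ≤ N ∧
        (∀ x ∈ L, ∃ g : F2, ∃ i : Fin 2,
          x = g * FreeGroup.of i * g⁻¹ ∨ x = g * (FreeGroup.of i)⁻¹ * g⁻¹) ∧
        L.prod = (Ψ (w₁ * w₂))⁻¹ * (Ψ w₁ * Ψ w₂) := by
  classical
  rintro ⟨Ψ, D, hΨK, hΨk, hqm⟩
  have rel : ∀ w₁ w₂ : FreeGroup K, ∃ c, CC D c ∧ Ψ w₁ * Ψ w₂ = c * Ψ (w₁ * w₂) := by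
    intro w₁ w₂
    obtain ⟨L, hL, hcl, hp⟩ := hqm w₁ w₂
    refine ⟨Ψ (w₁ * w₂) * L.prod * (Ψ (w₁ * w₂))⁻¹, CC.conj ⟨L, hL, hcl, rfl⟩ _, ?_⟩
    rw [hp]; group
  set SD : Finset ℝ := ((Finset.Icc (-(D+1:ℤ)) (D+1)) ×ˢ (Finset.Icc (-(D+1:ℤ)) (D+1))).image
    (fun p => (p.1 : ℝ) - β * p.2) with hSD
  obtain ⟨δ, hδ, hgood⟩ := good_n β hβ SD
  obtain ⟨N1, hN1⟩ := exists_nat_gt ((1 + 4 * (D:ℝ)^2 * (1 + β)) / δ)
  obtain ⟨N, hNN1, hNsq⟩ : ∃ N : ℕ, N1 ≤ N ∧ 4 * D^2 + 1 ≤ N :=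
    ⟨max N1 (4 * D^2 + 1), le_max_left _ _, le_max_right _ _⟩
  have hNpos : 1 ≤ N := le_trans (by omega) hNsq
  obtain ⟨M, hM⟩ : ∃ M : ℕ, M = 2 * D * N + 1 := ⟨_, rfl⟩
  obtain ⟨bd, hbd⟩ : ∃ bd : ℕ, bd = 9 * (D * N) + 9 * (D * M) + 54 * D + 3 * N + 3 * M + 33 :=
    ⟨_, rfl⟩
  obtain ⟨s, hs⟩ : ∃ s : ℕ, s = 2 * bd + 1 := ⟨_, rfl⟩
  obtain ⟨n, hn, hnS⟩ := hgood (Ts s + s + 2)
  have hnβ : (n:ℝ) ≤ n * β := by
    have : (0:ℝ) ≤ n := Nat.cast_nonneg n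
    nlinarith
  have hnβ0 : (0:ℝ) ≤ n * β := le_trans (Nat.cast_nonneg n) hnβ
  obtain ⟨p, hp⟩ : ∃ p : ℕ, p = ⌊(n:ℝ) * β⌋₊ := ⟨_, rfl⟩
  have hpn : n ≤ p := by rw [hp]; exact Nat.le_floor hnβ
  obtain ⟨k, hk⟩ : ∃ k : F2, k = kk (p - Ts s) (n - Ts s) s := ⟨_, rfl⟩
  have hex0 : toAdd (ex 0 k) = (p:ℤ) := by
    rw [hk, (ex_kk _ _ _).1]; congr 1; omega
  have hex1 : toAdd (ex 1 k) = (n:ℤ) := by
    rw [hk, (ex_kk _ _ _).2]; congr 1; omega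
  have hφk : toAdd (φ k) = Int.fract ((n:ℝ) * β) := by
    rw [phi_formula β φ h0 h1, hex0, hex1]
    have : (p:ℝ) = (⌊(n:ℝ) * β⌋ : ℤ) := by
      rw [hp]; exact (natCast_floor_eq_intCast_floor hnβ0)
    push_cast
    rw [this]
    unfold Int.fract
    ring
  have hkK : k ∈ K := by
    rw [hK]
    show 0 ≤ toAdd (φ k) ∧ toAdd (φ k) < 1
    rw [hφk]
    exact ⟨Int.fract_nonneg _, Int.fract_lt_one _⟩
  set w : FreeGroup K := FreeGroup.of ⟨k, hkK⟩ with hw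
  set x : ℕ → F2 := fun j => Ψ (w ^ j) with hx
  have hx1 : x 1 = k := by simp only [hx, pow_one, hw]; exact hΨk ⟨k, hkK⟩
  have hxx : ∀ i j, ∃ c, CC D c ∧ x i * x j = c * x (i + j) := by
    intro i j
    obtain ⟨c, hc, h⟩ := rel (w ^ i) (w ^ j)
    exact ⟨c, hc, by simp only [hx]; rw [h, pow_add]⟩
  have hr : ∀ j, CC (D * j) (x (j+1) * (k ^ (j+1))⁻¹) := by
    intro j
    induction j with
    | zero =>
      rw [zero_add, hx1, pow_one, mul_inv_cancel]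
      exact CC.one _
    | succ j ih =>
      obtain ⟨c, hc, h⟩ := hxx (j+1) 1
      rw [hx1] at h
      have : x (j + 1 + 1) * (k ^ (j + 1 + 1))⁻¹ = c⁻¹ * (x (j+1) * (k ^ (j+1))⁻¹) := by
        have hh : x (j+1+1) = c⁻¹ * (x (j+1) * k) := by rw [h]; group
        rw [hh, pow_succ k (j+1)]
        group
      rw [this]
      have h2 := hc.inv.mul ih
      refine h2.mono ?_
      rw [Nat.mul_succ]; omega
  have hcomm : ∀ i j, ∃ η, CC (2 * D) η ∧ x i * x j = η * (x j * x i) := by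
    intro i j
    obtain ⟨c, hc, h⟩ := hxx i j
    obtain ⟨c', hc', h'⟩ := hxx j i
    refine ⟨c * c'⁻¹, by rw [two_mul]; exact hc.mul hc'.inv, ?_⟩
    rw [h, h', add_comm j i]; group
  obtain ⟨η1, hη1, e1⟩ := hcomm 1 N
  obtain ⟨η2, hη2, e2⟩ := hcomm 1 M
  obtain ⟨η3, hη3, e3⟩ := hcomm M N
  rw [hx1] at e1 e2
  have hrN : CC (D * N) (x N * (k ^ N)⁻¹) := by
    have := hr (N - 1)
    rw [Nat.sub_add_cancel hNpos] at this
    exact this.mono (Nat.mul_le_mul_left _ (Nat.sub_le _ _))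
  have hrM : CC (D * M) (x M * (k ^ M)⁻¹) := by
    have := hr (M - 1)
    rw [Nat.sub_add_cancel (by omega : 1 ≤ M)] at this
    exact this.mono (Nat.mul_le_mul_left _ (Nat.sub_le _ _))
  have hM1 : 2 * D * (N - 1) < M := by
    have : 2 * D * (N - 1) ≤ 2 * D * N := Nat.mul_le_mul_left _ (Nat.sub_le _ _)
    omega
  have hM2 : D * N < M := by
    have : D * N ≤ 2 * D * N := by nlinarith [Nat.zero_le (D * N)]
    omega
  obtain ⟨S0, hS0, hc0⟩ := core 0 D N M k (x N) (x M) _ _ η1 η2 η3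
    (by group) (by group) hrN hrM e1 e2 e3 hη1 hη2 hη3 hM1 hM2
  obtain ⟨S1, hS1, hc1⟩ := core 1 D N M k (x N) (x M) _ _ η1 η2 η3
    (by group) (by group) hrN hrM e1 e2 e3 hη1 hη2 hη3 hM1 hM2
  -- choose a good coordinate
  obtain ⟨m, hm, hmS⟩ : ∃ m ∈ Finset.Ico 2 (s + 2), m ∉ S0 ∪ S1 := by
    by_contra hcon
    push Not at hcon
    have := Finset.card_le_card (show Finset.Ico 2 (s+2) ⊆ S0 ∪ S1 from hcon)
    have h2 := Finset.card_union_le S0 S1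
    rw [Nat.card_Ico] at this
    rw [← hbd] at hS0 hS1
    omega
  rw [Finset.mem_Ico] at hm
  rw [Finset.mem_union, not_or] at hmS
  have hr0 : (Ph 0 m k).right = ofAdd 1 := by
    rw [hk]; exact Ph_kk_right 0 m s _ _ hm.1 hm.2 (by omega) (by omega)
  have hr1 : (Ph 1 m k).right = ofAdd 1 := by
    rw [hk]; exact Ph_kk_right 1 m s _ _ hm.1 hm.2 (by omega) (by omega)
  obtain ⟨ρ, hρ⟩ := hc0 m hmS.1 hm.1 hr0
  obtain ⟨σ, hσ⟩ := hc1 m hmS.2 hm.1 hr1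
  set r := x N * (k ^ N)⁻¹ with hrdef
  have hb0 := CC_ex 0 hrN
  have hb1 := CC_ex 1 hrN
  have hbound : ∀ (e ρ : ℤ), |e| ≤ (D * N : ℕ) → |e - N * ρ| ≤ (2 * D : ℕ) * (2 * D : ℕ) →
      |ρ| ≤ D + 1 := by
    intro e ρ he heρ
    have hN0 : (1:ℤ) ≤ N := by exact_mod_cast hNpos
    have h4 : (4 * (D:ℤ)^2 + 1) ≤ N := by exact_mod_cast hNsq
    push_cast at he heρ
    by_contra hcon
    push Not at hcon
    have h5 : (N:ℤ) * |ρ| ≤ D * N + 2 * D * (2 * D) := by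
      have : |(N:ℤ) * ρ| ≤ |e| + |e - N * ρ| := by
        have := abs_sub e (e - N * ρ)
        have e' : e - (e - N * ρ) = N * ρ := by ring
        rw [e'] at this
        exact this
      rw [abs_mul, abs_of_nonneg (by positivity : (0:ℤ) ≤ N)] at this
      linarith
    nlinarith
  have hρb := hbound _ ρ hb0 hρ
  have hσb := hbound _ σ hb1 hσ
  have hmem : ((ρ:ℝ) - β * σ) ∈ SD := by
    rw [hSD, Finset.mem_image]
    refine ⟨(ρ, σ), ?_, rfl⟩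
    rw [Finset.mem_product, Finset.mem_Icc, Finset.mem_Icc]
    rw [abs_le] at hρb hσb
    exact ⟨hρb, hσb⟩
  have hdist := hnS _ hmem
  rw [← hφk] at hdist
  -- the contradiction
  have hxN : x N ∈ K := hΨK _
  rw [hK] at hxN
  have hxN' : 0 ≤ toAdd (φ (x N)) ∧ toAdd (φ (x N)) < 1 := hxN
  have hxNeq : x N = r * k ^ N := by rw [hrdef]; group
  have hφx : toAdd (φ (x N)) = toAdd (φ r) + N * toAdd (φ k) := by
    rw [hxNeq, map_mul, map_pow, toAdd_mul, toAdd_pow]; simp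
  rw [hφx, phi_formula β φ h0 h1 r] at hxN'
  set e0 : ℤ := toAdd (ex 0 r) with he0
  set e1' : ℤ := toAdd (ex 1 r) with he1
  have hρ' : |(e0:ℝ) - N * ρ| ≤ 4 * (D:ℝ)^2 := by
    have : |((e0 - N * ρ : ℤ) : ℝ)| ≤ (((2 * D : ℕ) * (2 * D : ℕ) : ℤ) : ℝ) := by
      rw [← Int.cast_abs]; exact_mod_cast hρ
    push_cast at this
    nlinarith
  have hσ' : |(e1':ℝ) - N * σ| ≤ 4 * (D:ℝ)^2 := by
    have : |((e1' - N * σ : ℤ) : ℝ)| ≤ (((2 * D : ℕ) * (2 * D : ℕ) : ℤ) : ℝ) := by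
      rw [← Int.cast_abs]; exact_mod_cast hσ
    push_cast at this
    nlinarith
  have hNreal : (1 + 4 * (D:ℝ)^2 * (1 + β)) / δ < N := by
    refine lt_of_lt_of_le hN1 ?_
    exact_mod_cast hNN1
  rw [div_lt_iff₀ hδ] at hNreal
  have hkey : (N:ℝ) * |toAdd (φ k) - ((ρ:ℝ) - β * σ)| ≤ 1 + 4 * (D:ℝ)^2 * (1 + β) := by
    have hN0 : (0:ℝ) ≤ N := Nat.cast_nonneg _
    rw [← abs_of_nonneg hN0, ← abs_mul]
    have e : (N:ℝ) * (toAdd (φ k) - ((ρ:ℝ) - β * σ)) =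
        (-(e0:ℝ) + β * e1' + N * toAdd (φ k)) + (e0 - N * ρ) - β * (e1' - N * σ) := by ring
    rw [e]
    rw [abs_le] at hρ' hσ' ⊢
    have hβ0 : 0 ≤ β := by linarith
    have m1 := mul_le_mul_of_nonneg_left hσ'.1 hβ0
    have m2 := mul_le_mul_of_nonneg_left hσ'.2 hβ0
    constructor <;> nlinarith [hxN'.1, hxN'.2]
  have hfin : (N:ℝ) * δ ≤ (N:ℝ) * |toAdd (φ k) - ((ρ:ℝ) - β * σ)| :=
    mul_le_mul_of_nonneg_left hdist (Nat.cast_nonneg _)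
  linarith

end Pool.Agent.Helper80.CK
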